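import Mathlib
import Pool.Agent.helper68.SF.SpecJ

/-!
# Project SF (MP_d52931_gt): module GU, the elementary integral
-/

set_option autoImplicit false

namespace SF

open MeasureTheory Set
open scoped ContDiff

noncomputable section

/-- the derivative of `𝒢` vanishes on `[1, ∞)` -/
lemma GU_der0 (g : ℝ → ℝ) (hc : ContDiff ℝ ∞ (GG g))
    (h0 : ∀ r : ℝ, |r| ≤ 1 / 2 ∨ 1 ≤ |r| → GG g r = 0) (r : ℝ) (hr : 1 ≤ r) :
    deriv (GG g) r = 0 := by
  have hcont : Continuous (deriv (GG g)) := hc.continuous_deriv (by simp)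
  have h1 : ∀ r ∈ Ioi (1 : ℝ), deriv (GG g) r = 0 := by
    intro r hr
    have : GG g =ᶠ[nhds r] fun _ => 0 := by
      filter_upwards [Ioi_mem_nhds hr] with x hx
      exact h0 x (Or.inr (hx.le.trans (le_abs_self x)))
    rw [this.deriv_eq, deriv_const]
  have h2 : IsClosed {r : ℝ | deriv (GG g) r = 0} := isClosed_eq hcont continuous_const
  have h3 : closure (Ioi (1 : ℝ)) ⊆ {r : ℝ | deriv (GG g) r = 0} :=
    h2.closure_subset_iff.2 h1
  rw [closure_Ioi] at h3
  exact h3 hr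

/-- the formula for `gu` -/
lemma GU_formula (g : ℝ → ℝ) (hc : ContDiff ℝ ∞ (GG g)) (u1 u2 l l' y : ℝ) (hy : 0 < y)
    (hl : 0 < l) (hu : 0 < u1 ^ 2 * y ^ 2 + u2 ^ 2) :
    gu g u1 u2 l l' y =
      deriv (GG g) (√((u1 ^ 2 * y ^ 2 + u2 ^ 2) * (l' ^ 2 + l ^ 2 / y ^ 2))) *
        (u1 * u2 * √((u1 ^ 2 * y ^ 2 + u2 ^ 2) * (l' ^ 2 + l ^ 2 / y ^ 2)) /
          (u1 ^ 2 * y ^ 2 + u2 ^ 2)) := by
  set S := (u1 ^ 2 * y ^ 2 + u2 ^ 2) * (l' ^ 2 + l ^ 2 / y ^ 2) with hS
  have hSpos : 0 < S := by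
    have : 0 < l ^ 2 / y ^ 2 := by positivity
    have h2 : 0 ≤ l' ^ 2 := sq_nonneg _
    exact mul_pos hu (by linarith)
  have hq : qq l l' y = y * (l' ^ 2 + l ^ 2 / y ^ 2) := by
    unfold qq
    field_simp
  have hF0 : ((u1 * 0 + u2) ^ 2 + (u1 * y) ^ 2) / y * qq l l' y = S := by
    rw [hq, hS]
    field_simp
    ring
  have h1 : HasDerivAt (fun x : ℝ => ((u1 * x + u2) ^ 2 + (u1 * y) ^ 2) / y * qq l l' y)
      ((2 * (u1 * 0 + u2) * u1) / y * qq l l' y) 0 := by
    have h2 : HasDerivAt (fun x : ℝ => u1 * x + u2) u1 0 := by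
      simpa using ((hasDerivAt_id (0 : ℝ)).const_mul u1).add_const u2
    have h3 := h2.pow 2
    have h4 := ((h3.add_const ((u1 * y) ^ 2)).div_const y).mul_const (qq l l' y)
    refine h4.congr_deriv ?_
    simp
  have h5 : HasDerivAt (fun x : ℝ => √(((u1 * x + u2) ^ 2 + (u1 * y) ^ 2) / y * qq l l' y))
      (((2 * (u1 * 0 + u2) * u1) / y * qq l l' y) / (2 * √S)) 0 := by
    have h6 := h1.sqrt (by rw [hF0]; exact hSpos.ne')
    rw [hF0] at h6
    exact h6
  have hd : HasDerivAt (GG g) (deriv (GG g) (√S)) (√S) :=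
    (hc.differentiable (by simp) _).hasDerivAt
  have h7 : HasDerivAt (fun x : ℝ => GG g (√(((u1 * x + u2) ^ 2 + (u1 * y) ^ 2) / y * qq l l' y)))
      (deriv (GG g) (√S) * (((2 * (u1 * 0 + u2) * u1) / y * qq l l' y) / (2 * √S))) 0 := by
    have hd' : HasDerivAt (GG g) (deriv (GG g) (√S))
        (√(((u1 * 0 + u2) ^ 2 + (u1 * y) ^ 2) / y * qq l l' y)) := by
      rw [hF0]
      exact hd
    exact hd'.comp (0 : ℝ) h5
  unfold gu
  rw [h7.deriv]
  congr 1
  have hs : √S * √S = S := Real.mul_self_sqrt hSpos.le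
  have hs0 : √S ≠ 0 := (Real.sqrt_pos.2 hSpos).ne'
  rw [hq, div_eq_div_iff (by positivity) hu.ne']
  have e1 : u1 * u2 * √S * (2 * √S) = 2 * (u1 * u2) * S := by
    calc u1 * u2 * √S * (2 * √S) = 2 * (u1 * u2) * (√S * √S) := by ring
      _ = 2 * (u1 * u2) * S := by rw [hs]
  rw [e1, hS]
  field_simp
  ring

/-- the variable `τ` -/
def GU_tau (a b l l' y : ℝ) : ℝ := a * l' * y - b * l / y

lemma GU_sum_sq (a b l l' y : ℝ) (hy : 0 < y) :
    (a ^ 2 * y ^ 2 + b ^ 2) * (l' ^ 2 + l ^ 2 / y ^ 2) =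
      (a * l + b * l') ^ 2 + GU_tau a b l l' y ^ 2 := by
  unfold GU_tau
  field_simp
  ring

/-- the weight -/
def GU_w (a b y : ℝ) : ℝ := a * b / (a ^ 2 * y ^ 2 + b ^ 2)

lemma GU_w_eq (a b : ℝ) (ha : 0 < a) (hb : 0 < b) (y : ℝ) :
    GU_w a b y = a / b * (1 + (a / b * y) ^ 2)⁻¹ := by
  unfold GU_w
  have h1 : 0 < a ^ 2 * y ^ 2 + b ^ 2 := by positivity
  have h2 : 0 < 1 + (a / b * y) ^ 2 := by positivity
  field_simp
  ring

lemma GU_w_int (a b : ℝ) (ha : 0 < a) (hb : 0 < b) : Integrable (GU_w a b) := by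
  have h1 : Integrable (fun y : ℝ => a / b * (1 + (a / b * y) ^ 2)⁻¹) := by
    have h2 : Integrable (fun x : ℝ => (1 + x ^ 2)⁻¹) := integrable_inv_one_add_sq
    exact (h2.comp_mul_left' (div_pos ha hb).ne').const_mul _
  refine h1.congr ?_
  filter_upwards with y
  exact (GU_w_eq a b ha hb y).symm

lemma GU_w_val (a b : ℝ) (ha : 0 < a) (hb : 0 < b) : ∫ y, GU_w a b y = Real.pi := by
  have h1 : ∫ y, GU_w a b y = ∫ y : ℝ, a / b * (1 + (a / b * y) ^ 2)⁻¹ := by
    refine integral_congr_ae ?_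
    filter_upwards with y
    exact GU_w_eq a b ha hb y
  rw [h1, integral_const_mul]
  have h2 := Measure.integral_comp_mul_left (fun x : ℝ => (1 + x ^ 2)⁻¹) (a / b)
  rw [h2, integral_univ_inv_one_add_sq, smul_eq_mul, abs_of_pos (inv_pos.2 (div_pos ha hb))]
  field_simp

lemma GU_w_nonneg (a b : ℝ) (ha : 0 < a) (hb : 0 < b) (y : ℝ) : 0 ≤ GU_w a b y := by
  unfold GU_w
  positivity

/-- `τ` has a positive derivative -/
lemma GU_tau_der (a b l l' y : ℝ) (hy : y ≠ 0) :
    HasDerivAt (GU_tau a b l l') (a * l' + b * l / y ^ 2) y := by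
  unfold GU_tau
  have h1 : HasDerivAt (fun y : ℝ => a * l' * y) (a * l') y := by
    simpa using (hasDerivAt_id y).const_mul (a * l')
  have h2 : HasDerivAt (fun y : ℝ => b * l / y) (-(b * l / y ^ 2)) y := by
    have h3 := (hasDerivAt_inv hy).const_mul (b * l)
    simp only [div_eq_mul_inv]
    refine h3.congr_deriv ?_
    ring
  have h4 := h1.sub h2
  refine h4.congr_deriv ?_
  ring

lemma GU_tau_inj (a b l l' : ℝ) (ha : 0 < a) (hb : 0 < b) (hl : 0 < l) (hl' : 0 < l') :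
    InjOn (GU_tau a b l l') (Ioi 0) := by
  have h1 : StrictMonoOn (GU_tau a b l l') (Ioi 0) := by
    intro x hx y hy hxy
    unfold GU_tau
    have hx' : (0 : ℝ) < x := hx
    have h2 : b * l / y < b * l / x := div_lt_div_of_pos_left (by positivity) hx' hxy
    have h3 : a * l' * x < a * l' * y := mul_lt_mul_of_pos_left hxy (by positivity)
    linarith
  exact h1.injOn

lemma GU_tau_image (a b l l' : ℝ) (ha : 0 < a) (hb : 0 < b) (hl : 0 < l) (hl' : 0 < l') :
    GU_tau a b l l' '' Ioi 0 = univ := by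
  rw [eq_univ_iff_forall]
  intro t
  have hA : 0 < a * l' := by positivity
  have hB : 0 < b * l := by positivity
  set D := √(t ^ 2 + 4 * (a * l') * (b * l)) with hD
  have hD2 : D ^ 2 = t ^ 2 + 4 * (a * l') * (b * l) := Real.sq_sqrt (by positivity)
  have hDt : |t| < D := by
    rw [hD]
    apply Real.lt_sqrt_of_sq_lt
    rw [sq_abs]
    have : 0 < 4 * (a * l') * (b * l) := by positivity
    linarith
  have hpos : 0 < t + D := by
    have := neg_abs_le t
    linarith
  refine ⟨(t + D) / (2 * (a * l')), ?_, ?_⟩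
  · exact div_pos hpos (by positivity)
  · unfold GU_tau
    field_simp
    nlinarith [hD2]

/-- the substitution `y ↦ τ` -/
lemma GU_sub1 (K : ℝ → ℝ) (a b l l' : ℝ) (ha : 0 < a) (hb : 0 < b) (hl : 0 < l) (hl' : 0 < l') :
    ∫ y in Ioi (0 : ℝ), (a * l' + b * l / y ^ 2) * K (GU_tau a b l l' y) = ∫ t, K t := by
  have h1 := integral_image_eq_integral_abs_deriv_smul (s := Ioi (0 : ℝ)) (f := GU_tau a b l l')
    (f' := fun y => a * l' + b * l / y ^ 2) measurableSet_Ioi
    (fun y hy => (GU_tau_der a b l l' y (ne_of_gt hy)).hasDerivWithinAt)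
    (GU_tau_inj a b l l' ha hb hl hl') K
  rw [GU_tau_image a b l l' ha hb hl hl', Measure.restrict_univ] at h1
  rw [h1]
  refine setIntegral_congr_fun measurableSet_Ioi fun y hy => ?_
  have hy' : (0 : ℝ) < y := hy
  have : 0 < a * l' + b * l / y ^ 2 := by positivity
  show _ = |a * l' + b * l / y ^ 2| • _
  rw [abs_of_pos this, smul_eq_mul]

/-- the involution -/
lemma GU_sub2 (f : ℝ → ℝ) (c : ℝ) (hc : 0 < c) :
    ∫ y in Ioi (0 : ℝ), c / y ^ 2 * f (c / y) = ∫ y in Ioi (0 : ℝ), f y := by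
  have hder : ∀ y ∈ Ioi (0 : ℝ), HasDerivWithinAt (fun y : ℝ => c / y) (-(c / y ^ 2)) (Ioi 0) y := by
    intro y hy
    have h3 := (hasDerivAt_inv (ne_of_gt (show (0 : ℝ) < y from hy))).const_mul c
    have h4 : HasDerivAt (fun y : ℝ => c / y) (-(c / y ^ 2)) y := by
      simp only [div_eq_mul_inv]
      refine h3.congr_deriv ?_
      ring
    exact h4.hasDerivWithinAt
  have hinj : InjOn (fun y : ℝ => c / y) (Ioi 0) := by
    intro x hx y hy h
    have hx' : (0 : ℝ) < x := hx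
    have hy' : (0 : ℝ) < y := hy
    have h' : c / x = c / y := h
    rw [div_eq_div_iff hx'.ne' hy'.ne'] at h'
    exact (mul_left_cancel₀ hc.ne' h').symm
  have himg : (fun y : ℝ => c / y) '' Ioi 0 = Ioi 0 := by
    ext t
    constructor
    · rintro ⟨y, hy, rfl⟩
      exact div_pos hc hy
    · intro ht
      have ht' : (0 : ℝ) < t := ht
      refine ⟨c / t, div_pos hc ht', ?_⟩
      show c / (c / t) = t
      field_simp
  have h1 := integral_image_eq_integral_abs_deriv_smul (s := Ioi (0 : ℝ)) (f := fun y : ℝ => c / y)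
    (f' := fun y => -(c / y ^ 2)) measurableSet_Ioi hder hinj f
  rw [himg] at h1
  rw [h1]
  refine setIntegral_congr_fun measurableSet_Ioi fun y hy => ?_
  have hy' : (0 : ℝ) < y := hy
  have : 0 < c / y ^ 2 := by positivity
  show _ = |(-(c / y ^ 2))| • _
  rw [abs_neg, abs_of_pos this, smul_eq_mul]

/-- the main case -/
lemma GU_main (g : ℝ → ℝ) (hc : ContDiff ℝ ∞ (GG g))
    (h0 : ∀ r : ℝ, |r| ≤ 1 / 2 ∨ 1 ≤ |r| → GG g r = 0) (C : ℝ) (hC : 0 < C)
    (hb1 : ∀ r, |deriv (GG g) r| ≤ C) (a b l l' : ℝ) (ha : 0 < a) (hb : 0 < b) (hl : 0 < l)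
    (hl' : 0 < l') :
    IntegrableOn (fun y => deriv (GG g) (√((a * l + b * l') ^ 2 + GU_tau a b l l' y ^ 2)) *
      √((a * l + b * l') ^ 2 + GU_tau a b l l' y ^ 2) * GU_w a b y) (Ioi 0) ∧
    ∫ y in Ioi (0 : ℝ), deriv (GG g) (√((a * l + b * l') ^ 2 + GU_tau a b l l' y ^ 2)) *
      √((a * l + b * l') ^ 2 + GU_tau a b l l' y ^ 2) * GU_w a b y = Ph g (a * l + b * l') ∧
    ∫ y in Ioi (0 : ℝ), |deriv (GG g) (√((a * l + b * l') ^ 2 + GU_tau a b l l' y ^ 2)) *
      √((a * l + b * l') ^ 2 + GU_tau a b l l' y ^ 2) * GU_w a b y| ≤ C * 4 := by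
  set ρ := a * l + b * l' with hρ
  have hρ0 : 0 < ρ := by positivity
  set H : ℝ → ℝ := fun t => deriv (GG g) (√(ρ ^ 2 + t ^ 2)) * √(ρ ^ 2 + t ^ 2) with hH
  have hcd : Continuous (deriv (GG g)) := hc.continuous_deriv (by simp)
  have hsq : Continuous fun t : ℝ => √(ρ ^ 2 + t ^ 2) :=
    Real.continuous_sqrt.comp (by fun_prop)
  have hHc : Continuous H := (hcd.comp hsq).mul hsq
  have hHb : ∀ t, |H t| ≤ C := by
    intro t
    have hr : 0 ≤ √(ρ ^ 2 + t ^ 2) := Real.sqrt_nonneg _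
    rcases le_total 1 (√(ρ ^ 2 + t ^ 2)) with h1 | h1
    · have : H t = 0 := by
        show deriv (GG g) (√(ρ ^ 2 + t ^ 2)) * √(ρ ^ 2 + t ^ 2) = 0
        rw [GU_der0 g hc h0 _ h1, zero_mul]
      rw [this, abs_zero]
      exact hC.le
    · show |deriv (GG g) (√(ρ ^ 2 + t ^ 2)) * √(ρ ^ 2 + t ^ 2)| ≤ C
      rw [abs_mul, abs_of_nonneg hr]
      calc |deriv (GG g) (√(ρ ^ 2 + t ^ 2))| * √(ρ ^ 2 + t ^ 2) ≤ C * 1 :=
            mul_le_mul (hb1 _) h1 hr hC.le
        _ = C := mul_one C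
  have hτc : ContinuousOn (GU_tau a b l l') (Ioi 0) := fun y hy =>
    (GU_tau_der a b l l' y (ne_of_gt hy)).continuousAt.continuousWithinAt
  have hmeas : ∀ w : ℝ → ℝ, Continuous w → AEStronglyMeasurable
      (fun y => H (GU_tau a b l l' y) * w y) (volume.restrict (Ioi 0)) := by
    intro w hw
    exact ((hHc.comp_continuousOn hτc).mul hw.continuousOn).aestronglyMeasurable measurableSet_Ioi
  have hwc : ∀ a b : ℝ, 0 < a → 0 < b → Continuous (GU_w a b) := by
    intro a b ha hb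
    unfold GU_w
    refine Continuous.div (by fun_prop) (by fun_prop) fun y => ?_
    positivity
  have hint : ∀ a' b' : ℝ, 0 < a' → 0 < b' →
      IntegrableOn (fun y => H (GU_tau a b l l' y) * GU_w a' b' y) (Ioi 0) := by
    intro a' b' ha' hb'
    refine Integrable.mono' (((GU_w_int a' b' ha' hb').integrableOn (s := Ioi 0)).const_mul C)
      (hmeas _ (hwc a' b' ha' hb')) ?_
    filter_upwards with y
    rw [Real.norm_eq_abs, abs_mul, abs_of_nonneg (GU_w_nonneg a' b' ha' hb' y)]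
    exact mul_le_mul_of_nonneg_right (hHb _) (GU_w_nonneg a' b' ha' hb' y)
  have hI := hint a b ha hb
  refine ⟨hI, ?_, ?_⟩
  · -- the involution
    have hc0 : 0 < b * l / (a * l') := by positivity
    have e1 := GU_sub2 (fun y => H (GU_tau a b l l' y) * GU_w a b y) (b * l / (a * l')) hc0
    have e2 : ∫ y in Ioi (0 : ℝ), b * l / (a * l') / y ^ 2 *
        (H (GU_tau a b l l' (b * l / (a * l') / y)) * GU_w a b (b * l / (a * l') / y)) =
        ∫ y in Ioi (0 : ℝ), H (GU_tau a b l l' y) * GU_w l' l y := by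
      refine setIntegral_congr_fun measurableSet_Ioi fun y hy => ?_
      have hy' : (0 : ℝ) < y := hy
      have t1 : GU_tau a b l l' (b * l / (a * l') / y) = -GU_tau a b l l' y := by
        unfold GU_tau
        field_simp
        ring
      have t2 : H (-GU_tau a b l l' y) = H (GU_tau a b l l' y) := by
        show deriv (GG g) (√(ρ ^ 2 + (-GU_tau a b l l' y) ^ 2)) *
          √(ρ ^ 2 + (-GU_tau a b l l' y) ^ 2) = _
        rw [neg_sq]
      have t3 : b * l / (a * l') / y ^ 2 * GU_w a b (b * l / (a * l') / y) = GU_w l' l y := by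
        unfold GU_w
        have p1 : 0 < a ^ 2 * (b * l / (a * l') / y) ^ 2 + b ^ 2 := by positivity
        have p2 : 0 < l' ^ 2 * y ^ 2 + l ^ 2 := by positivity
        field_simp
        ring
      show b * l / (a * l') / y ^ 2 *
        (H (GU_tau a b l l' (b * l / (a * l') / y)) * GU_w a b (b * l / (a * l') / y)) =
        H (GU_tau a b l l' y) * GU_w l' l y
      rw [t1, t2, ← t3]
      ring
    rw [e2] at e1
    -- the sum
    set K : ℝ → ℝ := fun t => deriv (GG g) (√(ρ ^ 2 + t ^ 2)) / √(ρ ^ 2 + t ^ 2) with hK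
    have e3 : (∫ y in Ioi (0 : ℝ), H (GU_tau a b l l' y) * GU_w a b y) +
        ∫ y in Ioi (0 : ℝ), H (GU_tau a b l l' y) * GU_w l' l y =
        ρ * ∫ t, K t := by
      rw [← integral_add hI (hint l' l hl' hl), ← GU_sub1 K a b l l' ha hb hl hl',
        ← integral_const_mul]
      refine setIntegral_congr_fun measurableSet_Ioi fun y hy => ?_
      have hy' : (0 : ℝ) < y := hy
      have hS := GU_sum_sq a b l l' y hy'
      set s := √(ρ ^ 2 + GU_tau a b l l' y ^ 2) with hs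
      have hpos : 0 < ρ ^ 2 + GU_tau a b l l' y ^ 2 := by positivity
      have hs0 : 0 < s := Real.sqrt_pos.2 hpos
      have hss : s ^ 2 = ρ ^ 2 + GU_tau a b l l' y ^ 2 := Real.sq_sqrt hpos.le
      have t4 : GU_w a b y + GU_w l' l y = ρ * (a * l' + b * l / y ^ 2) / s ^ 2 := by
        rw [hss, hρ, ← hS]
        unfold GU_w
        field_simp
        ring
      show H (GU_tau a b l l' y) * GU_w a b y + H (GU_tau a b l l' y) * GU_w l' l y =
        ρ * ((a * l' + b * l / y ^ 2) * K (GU_tau a b l l' y))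
      rw [← mul_add, t4]
      show deriv (GG g) s * s * (ρ * (a * l' + b * l / y ^ 2) / s ^ 2) =
        ρ * ((a * l' + b * l / y ^ 2) * (deriv (GG g) s / s))
      field_simp
    have e4 : ∫ t, K t = 2 * ∫ t in Ioi (0 : ℝ), K t := by
      rw [← integral_comp_abs (f := K)]
      refine integral_congr_ae ?_
      filter_upwards with t
      show deriv (GG g) (√(ρ ^ 2 + t ^ 2)) / √(ρ ^ 2 + t ^ 2) =
        deriv (GG g) (√(ρ ^ 2 + |t| ^ 2)) / √(ρ ^ 2 + |t| ^ 2)
      rw [sq_abs]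
    have e5 : Ph g ρ = ρ * ∫ t in Ioi (0 : ℝ), K t := rfl
    show ∫ y in Ioi (0 : ℝ), H (GU_tau a b l l' y) * GU_w a b y = Ph g ρ
    rw [e5]
    rw [e4] at e3
    have e1' : ∫ y in Ioi (0 : ℝ), H (GU_tau a b l l' y) * GU_w l' l y =
      ∫ y in Ioi (0 : ℝ), H (GU_tau a b l l' y) * GU_w a b y := e1
    rw [e1'] at e3
    linarith
  · show ∫ y in Ioi (0 : ℝ), |H (GU_tau a b l l' y) * GU_w a b y| ≤ C * 4
    calc ∫ y in Ioi (0 : ℝ), |H (GU_tau a b l l' y) * GU_w a b y|
        ≤ ∫ y in Ioi (0 : ℝ), C * GU_w a b y := by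
          refine integral_mono hI.abs ((GU_w_int a b ha hb).integrableOn.const_mul C) fun y => ?_
          show |H (GU_tau a b l l' y) * GU_w a b y| ≤ C * GU_w a b y
          rw [abs_mul, abs_of_nonneg (GU_w_nonneg a b ha hb y)]
          exact mul_le_mul_of_nonneg_right (hHb _) (GU_w_nonneg a b ha hb y)
      _ ≤ ∫ y, C * GU_w a b y := by
          refine setIntegral_le_integral ((GU_w_int a b ha hb).const_mul C) ?_
          filter_upwards with y
          exact mul_nonneg hC.le (GU_w_nonneg a b ha hb y)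
      _ = C * Real.pi := by rw [integral_const_mul, GU_w_val a b ha hb]
      _ ≤ C * 4 := mul_le_mul_of_nonneg_left Real.pi_le_four hC.le

theorem GU (hPHI : PHI_stmt) : GU_stmt := by
  intro g hg
  obtain ⟨hc, -, h0, -, -, C, hC, hb⟩ := hPHI g hg
  refine ⟨C * 4, by positivity, ?_⟩
  intro u1 u2 l l' hl hl'
  have hb1 : ∀ r, |deriv (GG g) r| ≤ C := fun r => (hb r).2.1
  -- the case of a zero
  have hzero : u1 * u2 = 0 → ∀ y, 0 < y → gu g u1 u2 l l' y = 0 := by
    intro hu y hy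
    by_cases h2 : 0 < u1 ^ 2 * y ^ 2 + u2 ^ 2
    · rw [GU_formula g hc u1 u2 l l' y hy hl h2, hu]
      simp
    · have h3 : u1 ^ 2 * y ^ 2 + u2 ^ 2 = 0 := le_antisymm (not_lt.1 h2) (by positivity)
      have h4 : u1 ^ 2 * y ^ 2 = 0 := by nlinarith [sq_nonneg (u1 * y), sq_nonneg u2]
      have h5 : u2 ^ 2 = 0 := by nlinarith [sq_nonneg (u1 * y), sq_nonneg u2]
      have hu1 : u1 = 0 := by
        rcases mul_eq_zero.1 h4 with h | h
        · exact pow_eq_zero_iff (two_ne_zero) |>.1 h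
        · exact absurd h (by positivity)
      have hu2 : u2 = 0 := pow_eq_zero_iff (two_ne_zero) |>.1 h5
      unfold gu
      rw [hu1, hu2]
      simp
  by_cases hu : u1 * u2 = 0
  · have hz : ∀ y ∈ Ioi (0 : ℝ), gu g u1 u2 l l' y = 0 := fun y hy => hzero hu y hy
    refine ⟨?_, ?_, ?_, hzero, fun _ y hy => hzero hu y hy⟩
    · exact (integrableOn_zero (μ := volume) (s := Ioi (0 : ℝ)) (ε' := ℝ)).congr_fun
        (fun y hy => (hz y hy).symm) measurableSet_Ioi
    · rw [setIntegral_congr_fun measurableSet_Ioi hz, hu]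
      simp
    · rw [setIntegral_congr_fun (g := fun _ => (0 : ℝ)) measurableSet_Ioi
        (fun y hy => by
          show |gu g u1 u2 l l' y| = 0
          rw [hz y hy, abs_zero])]
      simp only [integral_zero]
      positivity
  · have hu1 : u1 ≠ 0 := left_ne_zero_of_mul hu
    have hu2 : u2 ≠ 0 := right_ne_zero_of_mul hu
    have ha : 0 < |u1| := abs_pos.2 hu1
    have hb' : 0 < |u2| := abs_pos.2 hu2
    have hform : ∀ y ∈ Ioi (0 : ℝ), gu g u1 u2 l l' y = Real.sign (u1 * u2) *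
        (deriv (GG g) (√((|u1| * l + |u2| * l') ^ 2 + GU_tau |u1| |u2| l l' y ^ 2)) *
        √((|u1| * l + |u2| * l') ^ 2 + GU_tau |u1| |u2| l l' y ^ 2) * GU_w |u1| |u2| y) := by
      intro y hy
      have hy' : (0 : ℝ) < y := hy
      rw [GU_formula g hc u1 u2 l l' y hy' hl (by positivity)]
      have h1 : (u1 ^ 2 * y ^ 2 + u2 ^ 2) * (l' ^ 2 + l ^ 2 / y ^ 2) =
          (|u1| * l + |u2| * l') ^ 2 + GU_tau |u1| |u2| l l' y ^ 2 := by
        rw [← GU_sum_sq |u1| |u2| l l' y hy', sq_abs, sq_abs]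
      rw [h1]
      unfold GU_w
      rw [sq_abs, sq_abs, ← abs_mul]
      have h2 : u1 * u2 = Real.sign (u1 * u2) * |u1 * u2| := by
        rcases lt_or_gt_of_ne hu with h | h
        · rw [Real.sign_of_neg h, abs_of_neg h]
          ring
        · rw [Real.sign_of_pos h, abs_of_pos h]
          ring
      have h3 : Real.sign (u1 * u2) * |u1 * u2| = u1 * u2 := h2.symm
      have h4 : ∀ A B D : ℝ, A * (u1 * u2 * B / D) =
          Real.sign (u1 * u2) * (A * B * (|u1 * u2| / D)) := by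
        intro A B D
        have : Real.sign (u1 * u2) * (A * B * (|u1 * u2| / D)) =
            A * ((Real.sign (u1 * u2) * |u1 * u2|) * B / D) := by ring
        rw [this, h3]
      exact h4 _ _ _
    obtain ⟨m1, m2, m3⟩ := GU_main g hc h0 C hC hb1 |u1| |u2| l l' ha hb' hl hl'
    have hsgn : |Real.sign (u1 * u2)| = 1 := by
      rcases lt_or_gt_of_ne hu with h | h
      · rw [Real.sign_of_neg h, abs_neg, abs_one]
      · rw [Real.sign_of_pos h, abs_one]
    refine ⟨?_, ?_, ?_, hzero, ?_⟩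
    · have m1' : IntegrableOn (fun y => Real.sign (u1 * u2) *
        (deriv (GG g) (√((|u1| * l + |u2| * l') ^ 2 + GU_tau |u1| |u2| l l' y ^ 2)) *
        √((|u1| * l + |u2| * l') ^ 2 + GU_tau |u1| |u2| l l' y ^ 2) * GU_w |u1| |u2| y))
        (Ioi 0) := Integrable.const_mul m1 _
      exact m1'.congr_fun (fun y hy => (hform y hy).symm) measurableSet_Ioi
    · rw [setIntegral_congr_fun measurableSet_Ioi hform, integral_const_mul, m2]
    · have h5 : ∫ y in Ioi (0 : ℝ), |gu g u1 u2 l l' y| =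
          ∫ y in Ioi (0 : ℝ), |deriv (GG g) (√((|u1| * l + |u2| * l') ^ 2 +
            GU_tau |u1| |u2| l l' y ^ 2)) * √((|u1| * l + |u2| * l') ^ 2 +
            GU_tau |u1| |u2| l l' y ^ 2) * GU_w |u1| |u2| y| := by
        refine setIntegral_congr_fun measurableSet_Ioi fun y hy => ?_
        show |gu g u1 u2 l l' y| = _
        rw [hform y hy, abs_mul, hsgn, one_mul]
      rw [h5]
      exact m3
    · intro hρ y hy
      rw [hform y hy]
      have h6 : 1 ≤ √((|u1| * l + |u2| * l') ^ 2 + GU_tau |u1| |u2| l l' y ^ 2) := by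
        rw [Real.one_le_sqrt]
        nlinarith [sq_nonneg (GU_tau |u1| |u2| l l' y)]
      rw [GU_der0 g hc h0 _ h6]
      ring

end

end SF
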